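import Mathlib

/-!
# Base sizes of the symmetric group never exceed the degree

For every `n ≥ 1`, every group `G` isomorphic to `S_n` and every faithful action of `G` on a
finite set `X`, there is a base with at most `n` points.
-/

set_option autoImplicit false
set_option linter.unusedSimpArgs false

namespace Pool.Agent.Results.MP_3e5dca_al.BaseSizeAtMostDegree

open Equiv

/-- `B` is a base of the action of `G` on `X`: the only group element fixing every point of `B`
is the identity. -/
def IsBase (G : Type*) (X : Type*) [Group G] [MulAction G X] (B : Finset X) : Prop :=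
  ∀ g : G, (∀ x ∈ B, g • x = x) → g = 1

/-- The base size: the smallest cardinality of a base. -/
noncomputable def baseSize (G : Type*) (X : Type*) [Group G] [MulAction G X] : ℕ :=
  sInf {k | ∃ B : Finset X, B.card = k ∧ IsBase G X B}

/-! ### Chains -/

theorem chain {G X : Type*} [Group G] [Finite G] [MulAction G X] [FaithfulSMul G X] (m : ℕ) :
    ∀ K : Subgroup G, Nat.card K < 2 ^ (m + 1) →
      ∃ B : Finset X, B.card ≤ m ∧ ∀ g ∈ K, (∀ x ∈ B, g • x = x) → g = 1 := by
  classical
  induction m with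
  | zero =>
    intro K hK
    refine ⟨∅, by simp, ?_⟩
    intro g hg _
    have h1 : Nat.card K = 1 := by
      have := Nat.card_pos (α := K)
      omega
    have h2 := Subgroup.eq_bot_of_card_eq K h1
    rw [h2] at hg
    exact Subgroup.mem_bot.1 hg
  | succ m ih =>
    intro K hK
    by_cases hbot : K = ⊥
    · refine ⟨∅, by simp, ?_⟩
      intro g hg _
      rw [hbot] at hg
      exact Subgroup.mem_bot.1 hg
    · obtain ⟨g0, hg0, hne⟩ : ∃ g0 : G, g0 ∈ K ∧ g0 ≠ 1 := by
        by_contra hcon
        push Not at hcon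
        exact hbot ((Subgroup.eq_bot_iff_forall K).2 hcon)
      have hx : ∃ x : X, g0 • x ≠ x := by
        by_contra hcon
        push Not at hcon
        exact hne (eq_of_smul_eq_smul (α := X) (fun x => by rw [hcon x, one_smul]))
      obtain ⟨x, hx⟩ := hx
      set K' : Subgroup G := K ⊓ MulAction.stabilizer G x with hK'
      have hle : K' ≤ K := inf_le_left
      have hlt : Nat.card K' < Nat.card K := by
        rcases (Nat.le_of_dvd Nat.card_pos (Subgroup.card_dvd_of_le hle)).lt_or_eq with h | h
        · exact h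
        · exfalso
          have heq : K' = K := Subgroup.eq_of_le_of_card_ge hle h.ge
          have : g0 ∈ K' := by rw [heq]; exact hg0
          exact hx (MulAction.mem_stabilizer_iff.1 (Subgroup.mem_inf.1 this).2)
      have hhalf : 2 * Nat.card K' ≤ Nat.card K := by
        obtain ⟨c, hc⟩ := Subgroup.card_dvd_of_le hle
        have hc2 : 2 ≤ c := by
          by_contra h
          have : c = 0 ∨ c = 1 := by omega
          rcases this with h | h
          · have := Nat.card_pos (α := K)
            rw [hc, h] at this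
            omega
          · rw [hc, h] at hlt
            omega
        rw [hc]
        nlinarith
      obtain ⟨B, hB, hBK⟩ := ih K' (by
        have : 2 ^ (m + 1 + 1) = 2 * 2 ^ (m + 1) := by ring
        omega)
      refine ⟨insert x B, (Finset.card_insert_le _ _).trans (by omega), ?_⟩
      intro g hg hfix
      refine hBK g (Subgroup.mem_inf.2 ⟨hg, ?_⟩) (fun y hy => hfix y (Finset.mem_insert_of_mem hy))
      exact MulAction.mem_stabilizer_iff.2 (hfix x (Finset.mem_insert_self _ _))

/-! ### Three-cycles -/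

section Perm

variable {α : Type*} [DecidableEq α]

/-- The permutation `x ↦ y ↦ z ↦ x`. -/
def cyc (x y z : α) : Perm α := swap x y * swap y z

theorem cyc_conj (f : Perm α) (x y z : α) : f * cyc x y z * f⁻¹ = cyc (f x) (f y) (f z) := by
  unfold cyc
  rw [← mul_assoc, mul_swap_eq_swap_mul f x y, mul_assoc (swap (f x) (f y)),
    mul_swap_eq_swap_mul f y z]
  group

theorem cyc_inv (x y z : α) : (cyc x y z)⁻¹ = cyc z y x := by
  unfold cyc
  rw [mul_inv_rev, swap_inv, swap_inv, swap_comm y z, swap_comm x y]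

theorem cyc_rot {x y z : α} (hxy : x ≠ y) (hyz : y ≠ z) (hxz : x ≠ z) :
    cyc x y z = cyc y z x := by
  unfold cyc
  ext a
  by_cases h1 : a = x
  · subst h1; simp [swap_apply_def, hxy, hyz, hxz, hxy.symm, hyz.symm, hxz.symm]
  by_cases h2 : a = y
  · subst h2; simp [swap_apply_def, hxy, hyz, hxz, hxy.symm, hyz.symm, hxz.symm]
  by_cases h3 : a = z
  · subst h3; simp [swap_apply_def, hxy, hyz, hxz, hxy.symm, hyz.symm, hxz.symm]
  simp [swap_apply_def, h1, h2, h3]

/-- If `x, y` lie in a common support of no 3-cycle of `H`, then for `h` in `H ∩ tHt`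
(`t = (x y)`) the pairs `{x,y}` and `{hx,hy}` are equal or disjoint. -/
theorem share {H : Subgroup (Perm α)} {x y : α} (hxy : x ≠ y)
    (hN : ∀ z, z ≠ x → z ≠ y → cyc x y z ∉ H) {h : Perm α} (hh : h ∈ H)
    (ht : swap x y * h * swap x y ∈ H) :
    (swap x y * swap (h x) (h y) ∈ H) ∧
    ((h x = x ∧ h y = y) ∨ (h x = y ∧ h y = x) ∨
      (h x ≠ x ∧ h x ≠ y ∧ h y ≠ x ∧ h y ≠ y)) := by
  have hD : swap x y * swap (h x) (h y) ∈ H := by
    have h1 : swap x y * h * swap x y * h⁻¹ ∈ H := H.mul_mem ht (H.inv_mem hh)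
    have h2 : swap x y * h * swap x y * h⁻¹ = swap x y * swap (h x) (h y) := by
      rw [mul_assoc (swap x y) h, mul_swap_eq_swap_mul]
      group
    rwa [h2] at h1
  have hN' : ∀ z, z ≠ x → z ≠ y → cyc y x z ∉ H := by
    intro z hzx hzy hc
    have h1 := H.inv_mem hc
    rw [cyc_inv, cyc_rot hzx hxy hzy] at h1
    exact hN z hzx hzy h1
  have hinj : h x ≠ h y := fun e => hxy (h.injective e)
  refine ⟨hD, ?_⟩
  by_cases h1 : h x = x
  · left
    refine ⟨h1, ?_⟩
    by_contra h2
    rw [h1] at hD hinj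
    refine hN' (h y) hinj.symm h2 ?_
    unfold cyc
    rwa [swap_comm y x]
  by_cases h2 : h x = y
  · right; left
    refine ⟨h2, ?_⟩
    by_contra h3
    rw [h2] at hD hinj
    exact hN (h y) h3 hinj.symm hD
  by_cases h3 : h y = x
  · exfalso
    rw [h3] at hD
    refine hN' (h x) h1 h2 ?_
    unfold cyc
    rwa [swap_comm y x, swap_comm x (h x)]
  by_cases h4 : h y = y
  · exfalso
    rw [h4] at hD
    refine hN (h x) h1 h2 ?_
    unfold cyc
    rwa [swap_comm y (h x)]
  exact Or.inr (Or.inr ⟨h1, h2, h3, h4⟩)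

/-- The relation of lying in the support of a common 3-cycle of `H`. -/
def Rel (H : Subgroup (Perm α)) (x y : α) : Prop :=
  x = y ∨ (x ≠ y ∧ ∃ z, z ≠ x ∧ z ≠ y ∧ cyc x y z ∈ H)

theorem Rel.symm {H : Subgroup (Perm α)} {x y : α} (h : Rel H x y) : Rel H y x := by
  rcases h with h | ⟨hxy, z, hzx, hzy, hz⟩
  · exact Or.inl h.symm
  · refine Or.inr ⟨hxy.symm, z, hzy, hzx, ?_⟩
    have h1 := H.inv_mem hz
    rwa [cyc_inv, cyc_rot hzy hxy.symm hzx] at h1

theorem Rel.map {H : Subgroup (Perm α)} {x y : α} (h : Rel H x y) {f : Perm α} (hf : f ∈ H) :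
    Rel H (f x) (f y) := by
  rcases h with h | ⟨hxy, z, hzx, hzy, hz⟩
  · exact Or.inl (by rw [h])
  · refine Or.inr ⟨fun e => hxy (f.injective e), f z, fun e => hzx (f.injective e),
      fun e => hzy (f.injective e), ?_⟩
    rw [← cyc_conj]
    exact H.mul_mem (H.mul_mem hf hz) (H.inv_mem hf)

theorem cyc_apply_mid {x y z : α} (hyz : y ≠ z) (hxz : x ≠ z) : cyc x y z y = z := by
  unfold cyc
  simp [swap_apply_def, hyz, hyz.symm, hxz.symm]

theorem cyc_apply_fst {x y z : α} (hxy : x ≠ y) (hxz : x ≠ z) : cyc x y z x = y := by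
  unfold cyc
  simp [swap_apply_def, hxy, hxz]

theorem cyc_apply_lst {x y z : α} : cyc x y z z = x := by
  unfold cyc
  simp [swap_apply_def]

theorem cyc_apply_of_ne {x y z w : α} (h1 : w ≠ x) (h2 : w ≠ y) (h3 : w ≠ z) :
    cyc x y z w = w := by
  unfold cyc
  simp [swap_apply_def, h1, h2, h3]

theorem Rel.trans {H : Subgroup (Perm α)} {x y w : α} (h : Rel H x y) (h' : Rel H y w) :
    Rel H x w := by
  by_cases hxw : x = w
  · exact Or.inl hxw
  rcases h with h | ⟨hxy, z, hzx, hzy, hz⟩
  · rw [h]; exact h'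
  -- the 3-cycle `z y x` maps `y` to `x`
  have h1 := H.inv_mem hz
  rw [cyc_inv] at h1
  have h2 := Rel.map h' h1
  rw [cyc_apply_mid hxy.symm hzx] at h2
  by_cases hwz : w = z
  · subst hwz
    refine Or.inr ⟨hxw, y, hxy.symm, hzy.symm, ?_⟩
    rwa [cyc_rot hzy hxy.symm hzx, cyc_rot hxy.symm hzx.symm hzy.symm] at h1
  · by_cases hwy : w = y
    · subst hwy
      exact Or.inr ⟨hxy, z, hzx, hzy, hz⟩
    · rwa [cyc_apply_of_ne hwz hwy (Ne.symm hxw)] at h2

/-- If the relation is total then `H` contains all 3-cycles. -/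
theorem all_cyc {H : Subgroup (Perm α)} (htot : ∀ x y, Rel H x y) {p q r : α}
    (hpq : p ≠ q) (hqr : q ≠ r) (hpr : p ≠ r) : cyc p q r ∈ H := by
  rcases htot p q with h | ⟨-, z, hzp, hzq, hz⟩
  · exact absurd h hpq
  by_cases hzr : z = r
  · rwa [← hzr]
  rcases htot z r with h | ⟨-, w, hwz, hwr, hw⟩
  · exact absurd h hzr
  -- s = cyc z r w
  have hconj : ∀ {a b c : α}, cyc a b c ∈ H →
      cyc (cyc z r w a) (cyc z r w b) (cyc z r w c) ∈ H := by
    intro a b c habc
    rw [← cyc_conj]
    exact H.mul_mem (H.mul_mem hw habc) (H.inv_mem hw)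
  have sz : cyc z r w z = r := cyc_apply_fst hzr hwz.symm
  have sr : cyc z r w r = w := cyc_apply_mid hwr.symm hwz.symm
  have sw : cyc z r w w = z := cyc_apply_lst
  by_cases hwp : w = p
  · subst hwp
    have sq : cyc z r w q = q := cyc_apply_of_ne hzq.symm hqr hpq.symm
    have h1 := hconj hz
    rw [sw, sq, sz] at h1
    have h2 := hconj h1
    rw [sz, sq, sr] at h2
    have h3 := H.inv_mem h2
    rwa [cyc_inv] at h3
  by_cases hwq : w = q
  · subst hwq
    have sp : cyc z r w p = p := cyc_apply_of_ne hzp.symm hpr hpq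
    have h1 := hconj hz
    rw [sp, sw, sz] at h1
    have h2 := hconj h1
    rw [sp, sz, sr] at h2
    have h3 := H.inv_mem h2
    rw [cyc_inv, cyc_rot hqr hpr.symm hpq.symm, cyc_rot hpr.symm hpq hqr.symm] at h3
    exact h3
  · have sp : cyc z r w p = p := cyc_apply_of_ne hzp.symm hpr (Ne.symm hwp)
    have sq : cyc z r w q = q := cyc_apply_of_ne hzq.symm hqr (Ne.symm hwq)
    have h1 := hconj hz
    rwa [sp, sq, sz] at h1

theorem swap_comm_of_ne {a b c d : α} (h1 : c ≠ a) (h2 : c ≠ b) (h3 : d ≠ a) (h4 : d ≠ b) :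
    swap c d * swap a b = swap a b * swap c d := by
  have h := mul_swap_eq_swap_mul (swap a b) c d
  rw [swap_apply_of_ne_of_ne h1 h2, swap_apply_of_ne_of_ne h3 h4] at h
  exact h.symm

theorem sq_eq {o i₁ i₂ j k j' k' : α} (hio : i₁ ≠ o) (_ : i₂ ≠ o) (hii : i₁ ≠ i₂)
    (hjo : j ≠ o) (hji : j ≠ i₁) (hko : k ≠ o) (hki : k ≠ i₁)
    (_ : j ≠ o) (hji' : j ≠ i₂) (_ : k ≠ o) (hki' : k ≠ i₂)
    (h1 : j' ≠ j) (h2 : j' ≠ k) (h3 : k' ≠ j) (h4 : k' ≠ k)
    (hjo' : j' ≠ o) (h5 : j' ≠ i₁) (hko' : k' ≠ o) (h6 : k' ≠ i₁)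
    (h7 : j' ≠ i₂) (h8 : k' ≠ i₂) :
    (swap o i₁ * swap j k) * (swap o i₂ * swap j' k') *
      ((swap o i₁ * swap j k) * (swap o i₂ * swap j' k')) = cyc o i₁ i₂ := by
  have hBA : Commute (swap j k) (swap o i₁) := swap_comm_of_ne hjo hji hko hki
  have hBC : Commute (swap j k) (swap o i₂) := swap_comm_of_ne hjo hji' hko hki'
  have hDB : Commute (swap j' k') (swap j k) := swap_comm_of_ne h1 h2 h3 h4
  have hDA : Commute (swap j' k') (swap o i₁) := swap_comm_of_ne hjo' h5 hko' h6
  have hDC : Commute (swap j' k') (swap o i₂) := swap_comm_of_ne hjo' h7 hko' h8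
  have e1 : (swap o i₁ * swap j k) * (swap o i₂ * swap j' k') =
      (swap o i₁ * swap o i₂) * (swap j k * swap j' k') := by
    rw [mul_assoc, ← mul_assoc (swap j k), hBC.eq]
    simp only [mul_assoc]
  have hcomm : Commute (swap j k * swap j' k') (swap o i₁ * swap o i₂) :=
    ((hBA.mul_right hBC).mul_left (hDA.mul_right hDC))
  have e2 : (swap j k * swap j' k') * (swap j k * swap j' k') = 1 := by
    calc (swap j k * swap j' k') * (swap j k * swap j' k')
        = swap j k * (swap j' k' * swap j k) * swap j' k' := by simp only [mul_assoc]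
      _ = swap j k * (swap j k * swap j' k') * swap j' k' := by rw [hDB.eq]
      _ = (swap j k * swap j k) * (swap j' k' * swap j' k') := by simp only [mul_assoc]
      _ = 1 := by rw [swap_mul_self, swap_mul_self, one_mul]
  have e3 : swap o i₂ * swap o i₁ * swap o i₂ = swap i₁ i₂ := by
    rw [mul_swap_eq_swap_mul (swap o i₂) o i₁, swap_apply_left,
      swap_apply_of_ne_of_ne hio hii, mul_assoc, swap_mul_self, mul_one, swap_comm]
  rw [e1]
  calc (swap o i₁ * swap o i₂) * (swap j k * swap j' k') *
        ((swap o i₁ * swap o i₂) * (swap j k * swap j' k'))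
      = (swap o i₁ * swap o i₂) * ((swap j k * swap j' k') *
        (swap o i₁ * swap o i₂)) * (swap j k * swap j' k') := by simp only [mul_assoc]
    _ = (swap o i₁ * swap o i₂) * ((swap o i₁ * swap o i₂) *
        (swap j k * swap j' k')) * (swap j k * swap j' k') := by rw [hcomm.eq]
    _ = (swap o i₁ * (swap o i₂ * swap o i₁ * swap o i₂)) *
        ((swap j k * swap j' k') * (swap j k * swap j' k')) := by simp only [mul_assoc]
    _ = cyc o i₁ i₂ := by rw [e2, e3, mul_one]; rfl

end Perm

section Main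

variable {α : Type*} [DecidableEq α] [Fintype α] {X : Type*} [DecidableEq X]
  [MulAction (Perm α) X]

/-- The set of points `x₀` and `t • x₀` for `t` in `T`. -/
def pts (x₀ : X) (T : Finset (Perm α)) : Finset X := insert x₀ (T.image (· • x₀))

theorem card_pts (x₀ : X) (T : Finset (Perm α)) : (pts x₀ T).card ≤ T.card + 1 :=
  (Finset.card_insert_le _ _).trans (Nat.add_le_add_right Finset.card_image_le 1)

theorem pts_mem {x₀ : X} {T : Finset (Perm α)} {h : Perm α}
    (hfix : ∀ x ∈ pts x₀ T, h • x = x) :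
    h ∈ MulAction.stabilizer (Perm α) x₀ := by
  exact MulAction.mem_stabilizer_iff.2 (hfix x₀ (Finset.mem_insert_self _ _))

theorem pts_swap {x₀ : X} {T : Finset (Perm α)} {h : Perm α}
    (hfix : ∀ x ∈ pts x₀ T, h • x = x) {x y : α} (hxy : swap x y ∈ T) :
    swap x y * h * swap x y ∈ MulAction.stabilizer (Perm α) x₀ := by
  rw [MulAction.mem_stabilizer_iff]
  have h1 := hfix (swap x y • x₀)
    (Finset.mem_insert_of_mem (Finset.mem_image_of_mem _ hxy))
  rw [mul_smul, mul_smul, h1, smul_smul, swap_mul_self, one_smul]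

/-- The case where the stabiliser contains a 3-cycle. -/
theorem caseA {x₀ : X} {a b d : α} (hab : a ≠ b) (hbd : b ≠ d) (had : a ≠ d)
    (hc : cyc a b d ∈ MulAction.stabilizer (Perm α) x₀)
    (hn : ¬ ∀ x y, Rel (MulAction.stabilizer (Perm α) x₀) x y) :
    ∃ B : Finset X, B.card ≤ Fintype.card α ∧ IsBase (Perm α) X B := by
  classical
  set H := MulAction.stabilizer (Perm α) x₀ with hH
  set S : Finset α := Finset.univ.filter (fun y => Rel H a y) with hS
  have memS : ∀ {y}, y ∈ S ↔ Rel H a y := by intro y; simp [hS]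
  have haS : a ∈ S := memS.2 (Or.inl rfl)
  have hbS : b ∈ S := memS.2 (Or.inr ⟨hab, d, had.symm, hbd.symm, hc⟩)
  have hdS : d ∈ S := by
    refine memS.2 (Rel.symm (Or.inr ⟨had.symm, b, hbd, hab.symm, ?_⟩))
    rwa [← cyc_rot hbd had.symm hab.symm, ← cyc_rot hab hbd had]
  obtain ⟨y₀, hy₀⟩ : ∃ y₀, y₀ ∉ S := by
    by_contra hcon
    push Not at hcon
    exact hn (fun x y => (Rel.symm (memS.1 (hcon x))).trans (memS.1 (hcon y)))
  have hSS : ∀ {x y}, x ∈ S → y ∈ S → Rel H x y := fun hx hy =>
    (Rel.symm (memS.1 hx)).trans (memS.1 hy)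
  have hSn : ∀ {x y}, x ∈ S → y ∉ S → ¬ Rel H x y := fun hx hy hr =>
    hy (memS.2 ((memS.1 hx).trans hr))
  -- the key pair lemma
  have key : ∀ {x y : α} {h : Perm α}, x ∈ S → y ∉ S → h ∈ H →
      swap x y * h * swap x y ∈ H → (h x = x ∧ h y = y) ∨ (h x = y ∧ h y = x) := by
    intro x y h hx hy hh ht
    have hxy : x ≠ y := fun e => hy (e ▸ hx)
    have hN : ∀ z, z ≠ x → z ≠ y → cyc x y z ∉ H := by
      intro z hzx hzy hz
      exact hSn hx hy (Or.inr ⟨hxy, z, hzx, hzy, hz⟩)
    obtain ⟨hD, hcase⟩ := share hxy hN hh ht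
    rcases hcase with h1 | h1 | ⟨h1, h2, h3, h4⟩
    · exact Or.inl h1
    · exact Or.inr h1
    · exfalso
      -- find z in S, z ≠ x, fixed by D
      have hcardS : 3 ≤ S.card := by
        have hsub : ({a, b, d} : Finset α) ⊆ S := by
          intro t ht'
          simp only [Finset.mem_insert, Finset.mem_singleton] at ht'
          rcases ht' with rfl | rfl | rfl
          · exact haS
          · exact hbS
          · exact hdS
        have hc3 : ({a, b, d} : Finset α).card = 3 :=
          Finset.card_eq_three.2 ⟨a, b, d, hab, had, hbd, rfl⟩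
        rw [← hc3]
        exact Finset.card_le_card hsub
      have hz : ∃ z ∈ S, z ≠ x ∧ z ≠ h x ∧ z ≠ h y := by
        by_cases hboth : h x ∈ S ∧ h y ∈ S
        · exfalso
          have hr := Rel.map (hSS hboth.1 hboth.2) (H.inv_mem hh)
          rw [show h⁻¹ (h x) = x from h.symm_apply_apply x,
            show h⁻¹ (h y) = y from h.symm_apply_apply y] at hr
          exact hSn hx hy hr
        · obtain ⟨z, hzS, hz⟩ : ∃ z ∈ S, z ∉ (if h x ∈ S then {x, h x} else {x, h y} : Finset α) := by
            apply Finset.exists_mem_notMem_of_card_lt_card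
            split_ifs
            · exact lt_of_le_of_lt Finset.card_le_two (by omega)
            · exact lt_of_le_of_lt Finset.card_le_two (by omega)
          refine ⟨z, hzS, ?_⟩
          split_ifs at hz with h5
          · simp only [Finset.mem_insert, Finset.mem_singleton, not_or] at hz
            refine ⟨hz.1, hz.2, ?_⟩
            intro e
            exact hboth ⟨h5, e ▸ hzS⟩
          · simp only [Finset.mem_insert, Finset.mem_singleton, not_or] at hz
            refine ⟨hz.1, ?_, hz.2⟩
            intro e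
            exact h5 (e ▸ hzS)
      obtain ⟨z, hzS, hzx, hzhx, hzhy⟩ := hz
      have hzy : z ≠ y := fun e => hy (e ▸ hzS)
      have hr := Rel.map (hSS hx hzS) hD
      have e1 : (swap x y * swap (h x) (h y)) x = y := by
        simp [swap_apply_def, Ne.symm h1, Ne.symm h3]
      have e2 : (swap x y * swap (h x) (h y)) z = z := by
        simp [swap_apply_def, hzx, hzy, hzhx, hzhy]
      rw [e1, e2] at hr
      exact hSn hzS hy hr.symm
  set T : Finset (Perm α) := (Finset.univ \ S).image (fun y => swap a y) ∪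
    (S.erase a).image (fun x => swap x y₀) with hT
  have hTcard : T.card + 1 ≤ Fintype.card α := by
    have h1 : T.card ≤ (Finset.univ \ S).card + (S.erase a).card :=
      (Finset.card_union_le _ _).trans (Nat.add_le_add Finset.card_image_le Finset.card_image_le)
    have h2 : (Finset.univ \ S).card + S.card = Fintype.card α := by
      rw [Finset.card_sdiff_add_card_eq_card (Finset.subset_univ S), Finset.card_univ]
    have h3 : (S.erase a).card + 1 = S.card := Finset.card_erase_add_one haS
    omega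
  refine ⟨pts x₀ T, (card_pts x₀ T).trans hTcard, ?_⟩
  intro h hfix
  have hh : h ∈ H := pts_mem hfix
  have k1 : ∀ y, y ∉ S → (h a = a ∧ h y = y) ∨ (h a = y ∧ h y = a) := by
    intro y hy
    refine key haS hy hh (pts_swap hfix ?_)
    exact Finset.mem_union_left _ (Finset.mem_image.2 ⟨y, by simp [hy], rfl⟩)
  have k2 : ∀ x, x ∈ S → x ≠ a → (h x = x ∧ h y₀ = y₀) ∨ (h x = y₀ ∧ h y₀ = x) := by
    intro x hx hxa
    refine key hx hy₀ hh (pts_swap hfix ?_)
    exact Finset.mem_union_right _ (Finset.mem_image.2 ⟨x, Finset.mem_erase.2 ⟨hxa, hx⟩, rfl⟩)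
  have hy₀fix : h y₀ = y₀ := by
    rcases k2 b hbS hab.symm with h1 | h1
    · exact h1.2
    · rcases k2 d hdS had.symm with h2 | h2
      · exact h2.2
      · exact absurd (h1.2.symm.trans h2.2) hbd
  have hSfix : ∀ x ∈ S, x ≠ a → h x = x := by
    intro x hx hxa
    rcases k2 x hx hxa with h1 | h1
    · exact h1.1
    · exact absurd (h1.2.symm.trans hy₀fix) (fun e => hy₀ (e ▸ hx))
  have hafix : h a = a := by
    rcases k1 y₀ hy₀ with h1 | h1
    · exact h1.1
    · exact absurd (h1.2.symm.trans hy₀fix) (fun e => hy₀ (e ▸ haS))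
  ext x
  by_cases hxa : x = a
  · rw [hxa, hafix]; rfl
  by_cases hxS : x ∈ S
  · rw [hSfix x hxS hxa]; rfl
  · rcases k1 x hxS with h1 | h1
    · rw [h1.2]; rfl
    · exact absurd (h1.1.symm.trans hafix) hxa

/-- The case where the stabiliser contains no 3-cycle. -/
theorem caseB [FaithfulSMul (Perm α) X] {x₀ : X} (hcard : 5 ≤ Fintype.card α)
    (hno : ∀ x y z : α, x ≠ y → z ≠ x → z ≠ y →
      cyc x y z ∉ MulAction.stabilizer (Perm α) x₀) :
    ∃ B : Finset X, B.card ≤ Fintype.card α ∧ IsBase (Perm α) X B := by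
  classical
  set H := MulAction.stabilizer (Perm α) x₀ with hH
  -- transpositions in `H` through a point
  have hS1 : ∀ u : α, (Finset.univ.filter (fun y => y ≠ u ∧ swap u y ∈ H)).card ≤ 1 := by
    intro u
    rw [Finset.card_le_one]
    intro y hy y' hy'
    simp only [Finset.mem_filter, Finset.mem_univ, true_and] at hy hy'
    by_contra hne
    refine hno y u y' hy.1 (Ne.symm hne) hy'.1 ?_
    unfold cyc
    rw [swap_comm y u]
    exact H.mul_mem hy.2 hy'.2
  have hpick : ∀ E : Finset α, E.card ≤ 4 → ∃ z, z ∉ E := by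
    intro E hE
    obtain ⟨z, -, hz⟩ := Finset.exists_mem_notMem_of_card_lt_card
      (s := E) (t := Finset.univ) (by rw [Finset.card_univ]; omega)
    exact ⟨z, hz⟩
  obtain ⟨u, -⟩ := hpick ∅ (by simp)
  obtain ⟨v, hv⟩ := hpick ({u} ∪ Finset.univ.filter (fun y => y ≠ u ∧ swap u y ∈ H))
    ((Finset.card_union_le _ _).trans (by
      have := hS1 u
      have := Finset.card_singleton u
      omega))
  simp only [Finset.mem_union, Finset.mem_singleton, Finset.mem_filter, Finset.mem_univ,
    true_and, not_or, not_and] at hv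
  obtain ⟨w, hw⟩ := hpick (({u, v} ∪ Finset.univ.filter (fun y => y ≠ u ∧ swap u y ∈ H)) ∪
      Finset.univ.filter (fun y => y ≠ v ∧ swap v y ∈ H))
    ((Finset.card_union_le _ _).trans (by
      have h1 := hS1 u
      have h2 := hS1 v
      have h3 : ({u, v} : Finset α).card ≤ 2 := Finset.card_le_two
      have h4 := Finset.card_union_le ({u, v} : Finset α)
        (Finset.univ.filter (fun y => y ≠ u ∧ swap u y ∈ H))
      omega))
  simp only [Finset.mem_union, Finset.mem_insert, Finset.mem_singleton, Finset.mem_filter,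
    Finset.mem_univ, true_and, not_or, not_and] at hw
  have hvu : v ≠ u := hv.1
  have huv : swap u v ∉ H := hv.2 hv.1
  have hwu : w ≠ u := hw.1.1.1
  have hwv : w ≠ v := hw.1.1.2
  have huw : swap u w ∉ H := hw.1.2 hwu
  have hvw : swap v w ∉ H := hw.2 hwv
  obtain ⟨o, ho⟩ := hpick {u, v, w} (Finset.card_le_three.trans (by norm_num))
  simp only [Finset.mem_insert, Finset.mem_singleton, not_or] at ho
  obtain ⟨hou, hov, how⟩ := ho
  set I : Finset α := Finset.univ \ {o, u, v, w} with hI
  have hcard4 : ({o, u, v, w} : Finset α).card = 4 := by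
    rw [Finset.card_insert_of_notMem, Finset.card_insert_of_notMem,
      Finset.card_insert_of_notMem, Finset.card_singleton]
    · simpa using hwv.symm
    · simpa using ⟨hvu.symm, hwu.symm⟩
    · simpa using ⟨hou, hov, how⟩
  have hIcard : I.card + 4 = Fintype.card α := by
    rw [← hcard4, hI, Finset.card_sdiff_add_card_eq_card (Finset.subset_univ _),
      Finset.card_univ]
  have hImem : ∀ {i}, i ∈ I ↔ i ≠ o ∧ i ≠ u ∧ i ≠ v ∧ i ≠ w := by
    intro i; simp [hI]
  set T : Finset (Perm α) := I.image (fun i => swap o i) with hT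
  set B₁ : Finset X := pts x₀ T with hB₁
  have hB₁card : B₁.card + 3 ≤ Fintype.card α := by
    have h1 : B₁.card ≤ T.card + 1 := card_pts x₀ T
    have h2 : T.card ≤ I.card := Finset.card_image_le
    omega
  set K : Subgroup (Perm α) := fixingSubgroup (Perm α) (B₁ : Set X) with hK
  have hKfix : ∀ {h}, h ∈ K → ∀ x ∈ B₁, h • x = x := by
    intro h hh x hx
    exact (mem_fixingSubgroup_iff (Perm α)).1 hh x (by exact_mod_cast hx)
  have hKH : ∀ {h}, h ∈ K → h ∈ H := fun hh => pts_mem (hKfix hh)
  -- sharing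
  have hshare : ∀ {h : Perm α}, h ∈ K → ∀ {i}, i ∈ I →
      (swap o i * swap (h o) (h i) ∈ H) ∧
      ((h o = o ∧ h i = i) ∨ (h o = i ∧ h i = o) ∨
        (h o ≠ o ∧ h o ≠ i ∧ h i ≠ o ∧ h i ≠ i)) := by
    intro h hh i hi
    have hoi : o ≠ i := (hImem.1 hi).1.symm
    exact share hoi (fun z hz1 hz2 => hno o i z hoi hz1 hz2) (hKH hh)
      (pts_swap (hKfix hh) (Finset.mem_image_of_mem _ hi))
  -- elements of `K` fixing `o` are trivial
  have hfree : ∀ {h : Perm α}, h ∈ K → h o = o → h = 1 := by
    intro h hh hoo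
    have hI' : ∀ i ∈ I, h i = i := by
      intro i hi
      rcases (hshare hh hi).2 with h1 | h1 | h1
      · exact h1.2
      · exact absurd (h1.1.symm.trans hoo) (hImem.1 hi).1
      · exact absurd hoo h1.1
    have hout : ∀ z, z ≠ u → z ≠ v → z ≠ w → h z = z := by
      intro z h1 h2 h3
      by_cases hzo : z = o
      · rw [hzo, hoo]
      · exact hI' z (hImem.2 ⟨hzo, h1, h2, h3⟩)
    have himg : ∀ z, (z = u ∨ z = v ∨ z = w) → (h z = u ∨ h z = v ∨ h z = w) := by
      intro z hz
      by_contra hcon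
      push Not at hcon
      have h1 := hout (h z) hcon.1 hcon.2.1 hcon.2.2
      have h2 := h.injective h1
      rcases hz with rfl | rfl | rfl
      · exact hcon.1 h2
      · exact hcon.2.1 h2
      · exact hcon.2.2 h2
    have hHh : h ∈ H := hKH hh
    have inj : ∀ {x y}, x ≠ y → h x ≠ h y := fun hxy e => hxy (h.injective e)
    have i1 := inj hvu
    have i2 := inj hwu
    have i3 := inj hwv
    have concl : ∀ f : Perm α, f u = h u → f v = h v → f w = h w →
        (∀ z, z ≠ u → z ≠ v → z ≠ w → f z = z) → h = f := by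
      intro f e1 e2 e3 e4
      ext z
      by_cases h1 : z = u
      · rw [h1, e1]
      by_cases h2 : z = v
      · rw [h2, e2]
      by_cases h3 : z = w
      · rw [h3, e3]
      · rw [e4 z h1 h2 h3, hout z h1 h2 h3]
    rcases himg u (Or.inl rfl) with hu | hu | hu
    · rcases himg v (Or.inr (Or.inl rfl)) with hv' | hv' | hv'
      · exact absurd (hv'.trans hu.symm) i1
      · rcases himg w (Or.inr (Or.inr rfl)) with hw' | hw' | hw'
        · exact absurd (hw'.trans hu.symm) i2
        · exact absurd (hw'.trans hv'.symm) i3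
        · exact concl 1 hu.symm hv'.symm hw'.symm (fun _ _ _ _ => rfl)
      · rcases himg w (Or.inr (Or.inr rfl)) with hw' | hw' | hw'
        · exact absurd (hw'.trans hu.symm) i2
        · exfalso
          apply hvw
          rw [← concl (swap v w) ?_ ?_ ?_ ?_]
          · exact hHh
          · rw [hu, swap_apply_of_ne_of_ne hvu.symm hwu.symm]
          · rw [hv', swap_apply_left]
          · rw [hw', swap_apply_right]
          · intro z _ h2 h3
            exact swap_apply_of_ne_of_ne h2 h3
        · exact absurd (hw'.trans hv'.symm) i3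
    · rcases himg v (Or.inr (Or.inl rfl)) with hv' | hv' | hv'
      · rcases himg w (Or.inr (Or.inr rfl)) with hw' | hw' | hw'
        · exact absurd (hw'.trans hv'.symm) i3
        · exact absurd (hw'.trans hu.symm) i2
        · exfalso
          apply huv
          rw [← concl (swap u v) ?_ ?_ ?_ ?_]
          · exact hHh
          · rw [hu, swap_apply_left]
          · rw [hv', swap_apply_right]
          · rw [hw', swap_apply_of_ne_of_ne hwu hwv]
          · intro z h1 h2 _
            exact swap_apply_of_ne_of_ne h1 h2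
      · exact absurd (hv'.trans hu.symm) i1
      · rcases himg w (Or.inr (Or.inr rfl)) with hw' | hw' | hw'
        · exfalso
          apply hno u v w hvu.symm hwu hwv
          rw [← concl (cyc u v w) ?_ ?_ ?_ ?_]
          · exact hHh
          · rw [hu, cyc_apply_fst hvu.symm hwu.symm]
          · rw [hv', cyc_apply_mid hwv.symm hwu.symm]
          · rw [hw', cyc_apply_lst]
          · intro z h1 h2 h3
            exact cyc_apply_of_ne h1 h2 h3
        · exact absurd (hw'.trans hu.symm) i2
        · exact absurd (hw'.trans hv'.symm) i3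
    · rcases himg v (Or.inr (Or.inl rfl)) with hv' | hv' | hv'
      · rcases himg w (Or.inr (Or.inr rfl)) with hw' | hw' | hw'
        · exact absurd (hw'.trans hv'.symm) i3
        · exfalso
          apply hno u w v hwu.symm hvu hwv.symm
          rw [← concl (cyc u w v) ?_ ?_ ?_ ?_]
          · exact hHh
          · rw [hu, cyc_apply_fst hwu.symm hvu.symm]
          · rw [hv', cyc_apply_lst]
          · rw [hw', cyc_apply_mid hwv hvu.symm]
          · intro z h1 h2 h3
            exact cyc_apply_of_ne h1 h3 h2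
        · exact absurd (hw'.trans hu.symm) i2
      · rcases himg w (Or.inr (Or.inr rfl)) with hw' | hw' | hw'
        · exfalso
          apply huw
          rw [← concl (swap u w) ?_ ?_ ?_ ?_]
          · exact hHh
          · rw [hu, swap_apply_left]
          · rw [hv', swap_apply_of_ne_of_ne hvu hwv.symm]
          · rw [hw', swap_apply_right]
          · intro z h1 _ h3
            exact swap_apply_of_ne_of_ne h1 h3
        · exact absurd (hw'.trans hv'.symm) i3
        · exact absurd (hw'.trans hu.symm) i2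
      · exact absurd (hv'.trans hu.symm) i1
  have hinjK : Function.Injective (fun h : K => (h : Perm α) o) := by
    intro h h' e
    have e' : (h : Perm α) o = (h' : Perm α) o := e
    have h1 : ((h'⁻¹ * h : K) : Perm α) = 1 := by
      apply hfree (h'⁻¹ * h).2
      show (h' : Perm α).symm ((h : Perm α) o) = o
      rw [e', Equiv.symm_apply_apply]
    have h2 : (h'⁻¹ * h : K) = 1 := Subtype.ext h1
    exact (inv_mul_eq_one.1 h2).symm
  have hKcard : Nat.card K < 2 ^ (3 + 1) := by
    by_cases hn : Fintype.card α ≤ 15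
    · have h1 : Nat.card K ≤ Nat.card α := Nat.card_le_card_of_injective _ hinjK
      rw [Nat.card_eq_fintype_card (α := α)] at h1
      omega
    · push Not at hn
      have huniq : ∀ h ∈ K, ∀ h' ∈ K, h o ∈ I → h' o ∈ I → h o = h' o := by
        intro h hh h' hh' hj hj'
        by_contra hne
        have hjo := (hImem.1 hj).1
        have hjo' := (hImem.1 hj').1
        have hgen : ∀ f ∈ K, f o ∈ I → ∀ i ∈ I, i ≠ f o →
            f i ≠ o ∧ f i ≠ i ∧ swap o i * swap (f o) (f i) ∈ H := by
          intro f hf hfo i hi hne'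
          have hfo' := (hImem.1 hfo).1
          obtain ⟨h1, h2⟩ := hshare hf hi
          rcases h2 with h2 | h2 | h2
          · exact absurd h2.1 hfo'
          · exact absurd h2.1.symm hne'
          · exact ⟨h2.2.2.1, h2.2.2.2, h1⟩
        obtain ⟨i₁, hi₁, hi₁'⟩ : ∃ i₁ ∈ I, i₁ ∉ ({h o, h' o, h.symm (h' o)} : Finset α) :=
          Finset.exists_mem_notMem_of_card_lt_card
            (lt_of_le_of_lt Finset.card_le_three (by omega))
        simp only [Finset.mem_insert, Finset.mem_singleton, not_or] at hi₁'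
        obtain ⟨i₂, hi₂, hi₂'⟩ : ∃ i₂ ∈ I, i₂ ∉ ({h' o, h o} ∪ {i₁, h i₁} ∪
            {h'.symm (h o), h'.symm i₁, h'.symm (h i₁)} : Finset α) := by
          refine Finset.exists_mem_notMem_of_card_lt_card (lt_of_le_of_lt
            (Finset.card_union_le _ _) ?_)
          have h1 := Finset.card_union_le ({h' o, h o} : Finset α) {i₁, h i₁}
          have h2 : ({h' o, h o} : Finset α).card ≤ 2 := Finset.card_le_two
          have h3 : ({i₁, h i₁} : Finset α).card ≤ 2 := Finset.card_le_two
          have h4 : ({h'.symm (h o), h'.symm i₁, h'.symm (h i₁)} : Finset α).card ≤ 3 :=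
            Finset.card_le_three
          omega
        simp only [Finset.mem_union, Finset.mem_insert, Finset.mem_singleton, not_or] at hi₂'
        obtain ⟨⟨⟨n1, n2⟩, n3, n4⟩, n5, n6, n7⟩ := hi₂'
        obtain ⟨a1, a2, a3⟩ := hgen h hh hj i₁ hi₁ hi₁'.1
        obtain ⟨b1, b2, b3⟩ := hgen h' hh' hj' i₂ hi₂ n1
        have hi₁o := (hImem.1 hi₁).1
        have hi₂o := (hImem.1 hi₂).1
        set j := h o with hjdef
        set j' := h' o with hj'def
        set k := h i₁ with hk
        set k' := h' i₂ with hk'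
        have c1 : k ≠ j := fun e => hi₁o (h.injective e)
        have c2 : k' ≠ j' := fun e => hi₂o (h'.injective e)
        have c3 : k ≠ j' := fun e => hi₁'.2.2 (by rw [← e, hk, Equiv.symm_apply_apply])
        have c4 : k' ≠ j := fun e => n5 (by rw [← e, hk', Equiv.symm_apply_apply])
        have c5 : k' ≠ i₁ := fun e => n6 (by rw [← e, hk', Equiv.symm_apply_apply])
        have c6 : k' ≠ k := fun e => n7 (by rw [← e, hk', Equiv.symm_apply_apply])
        have hprod : (swap o i₁ * swap j k) * (swap o i₂ * swap j' k') *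
            ((swap o i₁ * swap j k) * (swap o i₂ * swap j' k')) ∈ H :=
          H.mul_mem (H.mul_mem a3 b3) (H.mul_mem a3 b3)
        have heq : (swap o i₁ * swap j k) * (swap o i₂ * swap j' k') *
            ((swap o i₁ * swap j k) * (swap o i₂ * swap j' k')) = cyc o i₁ i₂ := by
          exact sq_eq hi₁o hi₂o (Ne.symm n3) hjo (Ne.symm hi₁'.1) a1 a2 hjo (Ne.symm n2) a1
            (Ne.symm n4) (Ne.symm hne) (Ne.symm c3) c4 c6 hjo' (Ne.symm hi₁'.2.1) b1 c5 
            (Ne.symm n1) b2
        rw [heq] at hprod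
        exact hno o i₁ i₂ hi₁o.symm hi₂o n3 hprod
      obtain ⟨E, hE, hEK⟩ : ∃ E : Finset α, E.card ≤ 5 ∧ ∀ h ∈ K, h o ∈ E := by
        by_cases hex : ∃ h₀ ∈ K, h₀ o ∈ I
        · obtain ⟨h₀, hh₀, hh₀I⟩ := hex
          refine ⟨insert (h₀ o) {o, u, v, w}, ?_, ?_⟩
          · refine (Finset.card_insert_le _ _).trans ?_
            rw [hcard4]
          · intro h hh
            by_cases hhI : h o ∈ I
            · rw [huniq h hh h₀ hh₀ hhI hh₀I]
              exact Finset.mem_insert_self _ _
            · refine Finset.mem_insert_of_mem ?_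
              by_contra hcon
              exact hhI (by rw [hI]; exact Finset.mem_sdiff.2 ⟨Finset.mem_univ _, hcon⟩)
        · refine ⟨{o, u, v, w}, by omega, ?_⟩
          intro h hh
          by_contra hcon
          exact hex ⟨h, hh, by rw [hI]; exact Finset.mem_sdiff.2 ⟨Finset.mem_univ _, hcon⟩⟩
      have h1 : Nat.card K ≤ Nat.card E := by
        refine Nat.card_le_card_of_injective
          (fun h : K => (⟨(h : Perm α) o, hEK h h.2⟩ : E)) ?_
        intro h h' e
        exact hinjK (congrArg Subtype.val e)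
      rw [Nat.card_eq_fintype_card (α := E), Fintype.card_coe] at h1
      omega
  obtain ⟨B₂, hB₂, hB₂K⟩ := chain (X := X) 3 K hKcard
  refine ⟨B₁ ∪ B₂, (Finset.card_union_le _ _).trans (by omega), ?_⟩
  intro g hg
  refine hB₂K g ?_ (fun x hx => hg x (Finset.mem_union_right _ hx))
  rw [hK, mem_fixingSubgroup_iff]
  intro x hx
  exact hg x (Finset.mem_union_left _ (by exact_mod_cast hx))

end Main

theorem exists_base (n : ℕ) (G : Type*) [Group G] (e : G ≃* Perm (Fin n)) (X : Type*)
    [Finite X] [MulAction G X] [FaithfulSMul G X] :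
    ∃ B : Finset X, B.card ≤ n ∧ IsBase G X B := by
  classical
  letI : MulAction (Perm (Fin n)) X := MulAction.compHom X e.symm.toMonoidHom
  have hsmul : ∀ (g : Perm (Fin n)) (x : X), g • x = e.symm g • x := fun _ _ => rfl
  haveI : FaithfulSMul (Perm (Fin n)) X := ⟨fun {g g'} h => by
    have h1 : e.symm g = e.symm g' := eq_of_smul_eq_smul (α := X) (fun x => by
      have := h x
      rwa [hsmul, hsmul] at this)
    exact e.symm.injective h1⟩
  have main : ∃ B : Finset X, B.card ≤ n ∧ IsBase (Perm (Fin n)) X B := by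
    by_cases hn : n ≤ 4
    · have hc : Nat.card (⊤ : Subgroup (Perm (Fin n))) < 2 ^ (n + 1) := by
        rw [Subgroup.card_top, Nat.card_eq_fintype_card, Fintype.card_perm, Fintype.card_fin]
        interval_cases n <;> decide
      obtain ⟨B, hB, hB'⟩ := chain (X := X) n (⊤ : Subgroup (Perm (Fin n))) hc
      exact ⟨B, hB, fun g hg => hB' g (Subgroup.mem_top g) hg⟩
    · push Not at hn
      have hcard : Fintype.card (Fin n) = n := Fintype.card_fin n
      -- a 3-cycle moves some point
      have h01 : (⟨0, by omega⟩ : Fin n) ≠ ⟨1, by omega⟩ := by simp [Fin.ext_iff]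
      have h12 : (⟨1, by omega⟩ : Fin n) ≠ ⟨2, by omega⟩ := by simp [Fin.ext_iff]
      have h02 : (⟨0, by omega⟩ : Fin n) ≠ ⟨2, by omega⟩ := by simp [Fin.ext_iff]
      have hx : ∃ x₀ : X, cyc (⟨0, by omega⟩ : Fin n) ⟨1, by omega⟩ ⟨2, by omega⟩ • x₀ ≠ x₀ := by
        by_contra hcon
        push Not at hcon
        have h1 : cyc (⟨0, by omega⟩ : Fin n) ⟨1, by omega⟩ ⟨2, by omega⟩ = 1 :=
          eq_of_smul_eq_smul (α := X) (fun x => by rw [hcon x, one_smul])
        have h2 := cyc_apply_fst h01 h02
        rw [h1] at h2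
        exact h01 h2
      obtain ⟨x₀, hx₀⟩ := hx
      have hn' : ¬ ∀ x y, Rel (MulAction.stabilizer (Perm (Fin n)) x₀) x y := by
        intro htot
        exact hx₀ (MulAction.mem_stabilizer_iff.1 (all_cyc htot h01 h12 h02))
      by_cases hex : ∃ a b d : Fin n, a ≠ b ∧ b ≠ d ∧ a ≠ d ∧
          cyc a b d ∈ MulAction.stabilizer (Perm (Fin n)) x₀
      · obtain ⟨a, b, d, hab, hbd, had, hc⟩ := hex
        have := caseA hab hbd had hc hn'
        rwa [hcard] at this
      · push Not at hex
        have := caseB (x₀ := x₀) (by rw [hcard]; omega)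
          (fun x y z hxy hzx hzy => hex x y z hxy (Ne.symm hzy) (Ne.symm hzx))
        rwa [hcard] at this
  obtain ⟨B, hB, hB'⟩ := main
  refine ⟨B, hB, fun g hg => ?_⟩
  have h1 := hB' (e g) (fun x hx => by
    rw [hsmul, MulEquiv.symm_apply_apply]
    exact hg x hx)
  exact (map_eq_one_iff e e.injective).1 h1

/-- The base size set of a group: all base sizes of faithful actions on finite sets. -/
def baseSizeSet (G : Type*) [Group G] : Set ℕ :=
  {b | ∃ (X : Type) (_ : Finite X) (_ : MulAction G X) (_ : FaithfulSMul G X),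
    b = baseSize G X}

/-- **MP_3e5dca_al, Q1 (negative answer).** For every `n ≥ 1`, every group `G` isomorphic to the
symmetric group `S_n` and every faithful action of `G` on a finite set `X` there is a base with at
most `n` points, i.e. the base size is at most `n`; hence no element of the base size set of `S_n`
exceeds `n`. -/
theorem result (n : ℕ) (_hn : 1 ≤ n) :
    (∀ (G : Type*) [Group G] (_ : G ≃* Perm (Fin n)) (X : Type*) [Finite X] [MulAction G X]
      [FaithfulSMul G X],
        (∃ B : Finset X, B.card ≤ n ∧ IsBase G X B) ∧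
        (∃ B : Finset X, B.card = baseSize G X ∧ IsBase G X B) ∧
        baseSize G X ≤ n) ∧
    ∀ b ∈ baseSizeSet (Perm (Fin n)), b ≤ n := by
  have key : ∀ (G : Type _) [Group G] (_ : G ≃* Perm (Fin n)) (X : Type _) [Finite X]
      [MulAction G X] [FaithfulSMul G X],
        (∃ B : Finset X, B.card ≤ n ∧ IsBase G X B) ∧
        (∃ B : Finset X, B.card = baseSize G X ∧ IsBase G X B) ∧
        baseSize G X ≤ n := by
    intro G _ e X _ _ _
    obtain ⟨B, hB, hB'⟩ := exists_base n G e X
    have hmem : B.card ∈ {k | ∃ B : Finset X, B.card = k ∧ IsBase G X B} := ⟨B, rfl, hB'⟩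
    exact ⟨⟨B, hB, hB'⟩, Nat.sInf_mem ⟨_, hmem⟩, (Nat.sInf_le hmem).trans hB⟩
  refine ⟨key, ?_⟩
  rintro b ⟨X, hX, hA, hF, rfl⟩
  obtain ⟨B, hB, hB'⟩ := exists_base n (Perm (Fin n)) (MulEquiv.refl _) X
  have hmem : B.card ∈ {k | ∃ B : Finset X, B.card = k ∧ IsBase (Perm (Fin n)) X B} :=
    ⟨B, rfl, hB'⟩
  exact (Nat.sInf_le hmem).trans hB

end Pool.Agent.Results.MP_3e5dca_al.BaseSizeAtMostDegree
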